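import Pool.Agent.Helper19.Caustic.Main

set_option autoImplicit false

namespace Pool.Agent.Results.MP_3225bd_gt.FourCusps

open Pool.Agent.Helper19.Caustic
open scoped ContDiff

theorem foci_finite (γ : Ellipse) : γ.foci.Finite := by
  have hd := γ.hdet
  have hfin : {z : ℂ | z ^ 2 = (⟨(γ.r - γ.p) / (γ.p * γ.r - γ.q ^ 2),
      2 * (-γ.q / (γ.p * γ.r - γ.q ^ 2))⟩ : ℂ)}.Finite := by
    have h2 : (Polynomial.X ^ 2 - Polynomial.C (⟨(γ.r - γ.p) / (γ.p * γ.r - γ.q ^ 2),
        2 * (-γ.q / (γ.p * γ.r - γ.q ^ 2))⟩ : ℂ)) ≠ 0 :=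
      Polynomial.X_pow_sub_C_ne_zero two_pos _
    refine (Polynomial.finite_setOfPred_isRoot h2).subset ?_
    intro z hz
    have hz' : z ^ 2 = _ := hz
    simp only [Set.mem_ofPred_eq, Polynomial.IsRoot, Polynomial.eval_sub, Polynomial.eval_pow,
      Polynomial.eval_X, Polynomial.eval_C]
    rw [hz', sub_self]
  have hinj : Function.Injective (fun X : Plane =>
      (⟨X.1 - γ.centre.1, X.2 - γ.centre.2⟩ : ℂ)) := by
    intro X Y h
    have h1 := congrArg Complex.re h
    have h2 := congrArg Complex.im h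
    simp only at h1 h2
    ext
    · linarith
    · linarith
  refine (hfin.preimage hinj.injOn).subset ?_
  rintro X ⟨h1, h2⟩
  change (⟨X.1 - γ.centre.1, X.2 - γ.centre.2⟩ : ℂ) ^ 2 = _
  apply Complex.ext
  · rw [pow_two, Complex.mul_re]
    simp only
    rw [eq_div_iff hd.ne']
    linarith
  · rw [pow_two, Complex.mul_im]
    simp only
    have h3 : (X.1 - γ.centre.1) * (X.2 - γ.centre.2) = -γ.q / (γ.p * γ.r - γ.q ^ 2) := by
      rw [eq_div_iff hd.ne']
      linarith
    linarith

theorem not_focus (γ : Ellipse) {S : Plane} (hS : S ∉ γ.foci) : cA γ S ≠ 0 ∨ cB γ S ≠ 0 := by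
  by_contra h
  push Not at h
  apply hS
  obtain ⟨h1, h2⟩ := h
  unfold cA at h1
  unfold cB at h2
  exact ⟨by linarith, by linarith⟩

/-- **Cusps of caustics by reflection in an ellipse.** For every ellipse `γ` and every `n ≥ 1`:
the `n`th caustic by reflection is a smooth closed curve (in the projective plane) for every
source inside `γ`; the foci form a closed set of measure zero (a finite set), and for every source
inside `γ` that is not a focus the `n`th caustic has exactly four cusps, all of them ordinary. In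
particular the set of sources whose `n`th caustic does not have exactly four cusps is contained in
a closed set of measure zero. -/
theorem result (γ : Ellipse) (n : ℕ) (hn : 1 ≤ n) :
    (γ.foci.Finite ∧ IsClosed γ.foci ∧ MeasureTheory.volume γ.foci = 0) ∧
    (∀ S ∈ γ.inside, IsClosedCurve γ S n ∧
      ∀ φ, caustic γ S n φ 2 ≠ 0 → (IsCusp γ S n φ ↔
        deriv (fun s => ((caustic γ S n s 0 / caustic γ S n s 2,
          caustic γ S n s 1 / caustic γ S n s 2) : Plane)) φ = 0)) ∧
    {S | S ∈ γ.inside ∧ ¬ HasExactlyFourCusps γ S n} ⊆ γ.foci ∧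
    (∀ S ∈ γ.inside, S ∉ γ.foci → HasExactlyFourCusps γ S n ∧
      ∀ φ, IsCusp γ S n φ → IsOrdinaryCusp γ S n φ) := by
  have hfour : ∀ S ∈ γ.inside, S ∉ γ.foci → HasExactlyFourCusps γ S n :=
    fun S hS hf => four γ hS (not_focus γ hf) hn
  refine ⟨⟨foci_finite γ, (foci_finite γ).isClosed, (foci_finite γ).measure_zero _⟩,
    fun S hS => ⟨⟨caustic_smooth γ hS n, caustic_ne_zero γ hS n, caustic_periodic γ S n⟩,
      fun φ h0 => cusp_iff_affine ((caustic_smooth γ hS n).differentiable (by simp) φ) h0⟩, ?_,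
    fun S hS hf => ⟨hfour S hS hf, fun φ hc =>
      ⟨hc, ordinary γ hS (not_focus γ hf) hn φ hc⟩⟩⟩
  rintro S ⟨hS, hn4⟩
  by_contra hf
  exact hn4 (hfour S hS hf)

end Pool.Agent.Results.MP_3225bd_gt.FourCusps
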